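import Pool.Agent.X247.Fx.Ones

set_option autoImplicit false

/-!
# The word is not automatic
-/

namespace Pool.Agent.X247.Fx

/-- two arithmetic progressions with the same difference along which the sequence agrees -/
def Rep (k : ℕ) (a : ℕ → ℕ) : Prop :=
  ∃ q j p : ℕ, 1 ≤ p ∧ ∀ i, 1 ≤ i → a (k ^ q * i + j) = a (k ^ q * i + (j + p))

theorem le_len (m : ℕ) : m ≤ len m := by
  have h1 := P_strictMono.id_le (4 ^ m)
  have h2 : m < 4 ^ m := Nat.lt_pow_self (by norm_num)
  unfold len
  simp only [id_eq] at h1
  omega

theorem periodic_of_rep {k : ℕ} (hk : 2 ≤ k) (h : Rep k b) :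
    ∃ p, 1 ≤ p ∧ ∀ z, b z = b (z + p) := by
  obtain ⟨q, j, p, hp, h⟩ := h
  refine ⟨p, hp, fun z => ?_⟩
  let m := z + p + 1
  have hm : z + p < len m := lt_of_lt_of_le (by omega) (le_len m)
  obtain ⟨i, hi, hei⟩ := exists_mul (3 * k ^ q) (by positivity |> fun h : 0 < 3 * k ^ q => h)
    ((j : ℤ) - z)
  have h1 := three_P (4 ^ m * (3 * k ^ q * i))
  rw [e_pow_mul, hei] at h1
  push_cast at h1
  have h2 : (P (4 ^ m * (3 * k ^ q * i)) + z : ℤ) = k ^ q * (7 * 4 ^ m * i) + j := by
    nlinarith
  have h3 : P (4 ^ m * (3 * k ^ q * i)) + z = k ^ q * (7 * 4 ^ m * i) + j := by exact_mod_cast h2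
  have hI : 1 ≤ 7 * 4 ^ m * i := Nat.mul_pos (by positivity) hi
  have h4 := h _ hI
  rw [← add_assoc, ← h3, b_block m _ z (by omega), add_assoc,
    b_block m _ (z + p) hm] at h4
  exact h4

theorem b_P (t : ℕ) : b (P t) = 1 := by
  unfold b
  rw [if_pos ⟨t, rfl⟩]

theorem b_one {i : ℕ} (h : b i = 1) : ∃ t, P t = i := by
  unfold b at h
  by_contra hn
  rw [if_neg hn] at h
  omega

theorem b_mid {t i : ℕ} (h1 : P t < i) (h2 : i < P (t + 1)) : b i = 2 := by
  unfold b
  rw [if_neg]
  rintro ⟨s, rfl⟩
  have h3 := P_strictMono.lt_iff_lt.1 h1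
  have h4 := P_strictMono.lt_iff_lt.1 h2
  omega

theorem not_periodic {p : ℕ} (hp : 1 ≤ p) (h : ∀ z, b z = b (z + p)) : False := by
  have h0 : b p = 1 := by
    have := h 0
    rw [zero_add] at this
    rw [← this]
    exact b_P 0
  obtain ⟨o, ho⟩ := b_one h0
  have ho1 : 1 ≤ o := by
    rcases Nat.eq_zero_or_pos o with h1 | h1
    · subst h1
      simp only [P] at ho
      omega
    · exact h1
  have hshift : ∀ t, P (t + o) = P t + p := by
    intro t
    induction t with
    | zero => simp [P, ho]
    | succ t ih =>
      have e1 : t + 1 + o = t + o + 1 := by ring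
      rw [e1]
      rcases P_succ t with h1 | h1 <;> rcases P_succ (t + o) with h2 | h2
      · omega
      · exfalso
        have h3 : b (P t + 2) = 1 := by rw [← h1]; exact b_P _
        rw [h] at h3
        have h4 : b (P (t + o) + 2) = 2 := b_mid (t := t + o) (by omega) (by omega)
        have e2 : P t + 2 + p = P (t + o) + 2 := by omega
        rw [e2, h4] at h3
        omega
      · exfalso
        have h3 : b (P (t + o) + 2) = 1 := by rw [← h2]; exact b_P _
        have h4 : b (P t + 2) = 2 := b_mid (t := t) (by omega) (by omega)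
        have e2 : P t + 2 + p = P (t + o) + 2 := by omega
        have h5 := h (P t + 2)
        rw [e2, h4, h3] at h5
        omega
      · omega
  have hadd : ∀ t, e (t + o) = e t + e o := by
    intro t
    have h1 := three_P (t + o)
    have h2 := three_P t
    have h3 := three_P o
    have h4 := hshift t
    have h5 := hshift 0
    simp only [zero_add, P] at h5
    push_cast at h1
    have h6 : (P (t + o) : ℤ) = P t + p := by exact_mod_cast h4
    have h7 : (P o : ℤ) = p := by exact_mod_cast h5
    linarith
  have hmul : ∀ r : ℕ, e (r * o) = r * e o := by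
    intro r
    induction r with
    | zero => simp [e_zero]
    | succ r ih =>
      rw [Nat.succ_mul, hadd, ih]
      push_cast
      ring
  have h4 := hmul 4
  rw [e_four] at h4
  have h5 : e o = 0 := by
    push_cast at h4
    linarith
  obtain ⟨i, -, hi⟩ := exists_mul o ho1 1
  rw [mul_comm, hmul, h5] at hi
  norm_num at hi

theorem not_rep {k : ℕ} (hk : 2 ≤ k) : ¬ Rep k b := by
  intro h
  obtain ⟨p, hp, h⟩ := periodic_of_rep hk h
  exact not_periodic hp h

/-! ### the words of the statement -/

/-- the words `x₁, x₂, …` (`word n` is `x_{n+1}`) -/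
def word : ℕ → List ℕ
  | 0 => [1, 2]
  | n + 1 => word n ++ word n ++ (word n).reverse ++ (word n).reverse ++ [2]

theorem word_pal (n : ℕ) : (word n).reverse ++ [2] = 2 :: word n := by
  induction n with
  | zero => rfl
  | succ n ih =>
    have h1 : word (n + 1) = word n ++ word n ++ ((word n).reverse ++ ((word n).reverse ++ [2])) := by
      simp [word]
    rw [ih] at h1
    have h2 : (word n).reverse ++ 2 :: word n = 2 :: (word n ++ word n) := by
      have : (word n).reverse ++ 2 :: word n = ((word n).reverse ++ [2]) ++ word n := by simp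
      rw [this, ih]
      rfl
    rw [h2] at h1
    rw [h1]
    simp only [List.reverse_append, List.reverse_cons, List.append_assoc]
    have h3 : (word n).reverse ++ ([2] ++ ((word n).reverse ++ ((word n).reverse ++ [2]))) =
        2 :: (word n ++ ((word n).reverse ++ (2 :: word n))) := by
      rw [ih, ← List.append_assoc, ih]
      rfl
    rw [h3, h2]
    have h4 : (word n).reverse ++ 2 :: (word n ++ 2 :: (word n ++ word n)) =
        2 :: (word n ++ (word n ++ 2 :: (word n ++ word n))) := by
      have : (word n).reverse ++ 2 :: (word n ++ 2 :: (word n ++ word n)) =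
        ((word n).reverse ++ [2]) ++ (word n ++ 2 :: (word n ++ word n)) := by simp
      rw [this, ih]
      rfl
    rw [h4]

theorem word_succ (n : ℕ) :
    word (n + 1) = word n ++ word n ++ [2] ++ word n ++ word n := by
  have h1 : word (n + 1) = word n ++ word n ++ ((word n).reverse ++ ((word n).reverse ++ [2])) := by
    simp [word]
  rw [h1, word_pal]
  have : (word n).reverse ++ 2 :: word n = ((word n).reverse ++ [2]) ++ word n := by simp
  rw [this, word_pal]
  simp

theorem P_four (m : ℕ) : P (4 ^ m * 0) = 0 ∧ P (4 ^ m * 1) = len m ∧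
    P (4 ^ m * 2) = 2 * len m + 1 ∧ P (4 ^ m * 3) = 3 * len m + 1 ∧
    len (m + 1) = 4 * len m + 1 := by
  have hl : (3 * len m + 1 : ℤ) = 7 * 4 ^ m := by exact_mod_cast three_len m
  have hl1 : (3 * len (m + 1) + 1 : ℤ) = 7 * 4 ^ (m + 1) := by exact_mod_cast three_len (m + 1)
  have e2 : e 2 = 1 := by
    have := e_digit 0 2 (by norm_num)
    simpa [e_zero, c] using this
  have e3 : e 3 = 0 := by
    have := e_digit 0 3 (by norm_num)
    simpa [e_zero, c] using this
  have h2 := three_P (4 ^ m * 2)
  have h3 := three_P (4 ^ m * 3)
  rw [e_pow_mul, e2] at h2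
  rw [e_pow_mul, e3] at h3
  push_cast at h2 h3
  refine ⟨by simp [P], by simp [len], ?_, ?_, ?_⟩
  · have : (P (4 ^ m * 2) : ℤ) = 2 * len m + 1 := by linarith
    exact_mod_cast this
  · have : (P (4 ^ m * 3) : ℤ) = 3 * len m + 1 := by linarith
    exact_mod_cast this
  · rw [pow_succ] at hl1
    have : (len (m + 1) : ℤ) = 4 * len m + 1 := by linarith
    exact_mod_cast this

theorem word_eq (n : ℕ) : word n = (List.range (len n)).map b := by
  induction n with
  | zero =>
    have h1 : len 0 = 2 := by
      have := three_len 0
      omega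
    have h2 : b 0 = 1 := b_P 0
    have h3 : b 1 = 2 := b_mid (t := 0) (by simp [P]) (by
      have : P (0 + 1) = len 0 := by simp [len]
      rw [this, h1]; norm_num)
    rw [h1]
    simp [word, List.range_succ, h2, h3]
  | succ n ih =>
    obtain ⟨p0, p1, p2, p3, p4⟩ := P_four n
    have hb : ∀ t, (List.range (len n)).map (fun z => b (P (4 ^ n * t) + z)) =
        (List.range (len n)).map b := by
      intro t
      apply List.map_congr_left
      intro z hz
      exact b_block n t z (List.mem_range.1 hz)
    have hb1 := hb 1
    have hb2 := hb 2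
    have hb3 := hb 3
    rw [p1] at hb1
    rw [p2] at hb2
    rw [p3] at hb3
    have hmid : b (2 * len n) = 2 := by
      have hlast : P (4 ^ n * 2 - 1) < 2 * len n := by
        have h5 : P (4 ^ n * 2 - 1 + 1) = 2 * len n + 1 := by
          rw [Nat.sub_add_cancel (by have : 0 < 4 ^ n := by positivity
                                     omega)]
          exact p2
        rcases P_succ (4 ^ n * 2 - 1) with h6 | h6 <;> omega
      refine b_mid (t := 4 ^ n * 2 - 1) hlast ?_
      rw [Nat.sub_add_cancel (by have : 0 < 4 ^ n := by positivity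
                                 omega), p2]
      omega
    have hl : len (n + 1) = len n + len n + 1 + len n + len n := by omega
    rw [word_succ, hl, List.range_add, List.range_add, List.range_add, List.range_add]
    simp only [List.map_append, List.map_map]
    rw [ih]
    congr 1
    · congr 1
      · congr 1
        · congr 1
          rw [← hb1]
          rfl
        · simp only [List.range_one, List.map_cons, List.map_nil, Function.comp]
          rw [add_zero, ← two_mul, hmid]
      · rw [← hb2]
        apply List.map_congr_left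
        intro z _
        simp only [Function.comp]
        congr 1
        ring
    · rw [← hb3]
      apply List.map_congr_left
      intro z _
      simp only [Function.comp]
      congr 1
      ring

/-- a sequence with all the words as prefixes is the word `b` -/
theorem eq_b {a : ℕ → ℕ} (ha : ∀ n i, (h : i < (word n).length) → a i = (word n)[i]) : a = b := by
  funext i
  have h1 : i < (word (i + 1)).length := by
    rw [word_eq]
    simp only [List.length_map, List.length_range]
    exact lt_of_lt_of_le (by omega) (le_len (i + 1))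
  rw [ha (i + 1) i h1]
  simp [word_eq]

/-- existence of such a sequence -/
theorem b_word (n i : ℕ) (h : i < (word n).length) : b i = (word n)[i] := by
  simp [word_eq]

end Pool.Agent.X247.Fx
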