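import Mathlib

set_option autoImplicit false

/-!
# The positions of the letter 1

`e t` is the number of digits 2 minus the number of digits 1 of `t` in base 4, and
`P t = (7 t + e t) / 3`.
-/

namespace Pool.Agent.X247.Fx

/-- contribution of a digit -/
def c (d : ℕ) : ℤ := if d = 1 then -1 else if d = 2 then 1 else 0

/-- number of digits `2` minus number of digits `1` in base `4` -/
def e (t : ℕ) : ℤ := if h : t = 0 then 0 else c (t % 4) + e (t / 4)
termination_by t
decreasing_by omega

theorem e_zero : e 0 = 0 := by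
  rw [e]
  simp

theorem e_digit (t d : ℕ) (hd : d < 4) : e (4 * t + d) = e t + c d := by
  by_cases h : 4 * t + d = 0
  · obtain ⟨rfl, rfl⟩ : t = 0 ∧ d = 0 := by omega
    simp [e_zero, c]
  · rw [e, dif_neg h]
    have h1 : (4 * t + d) % 4 = d := by omega
    have h2 : (4 * t + d) / 4 = t := by omega
    rw [h1, h2]
    ring

theorem e_four (t : ℕ) : e (4 * t) = e t := by
  have := e_digit t 0 (by norm_num)
  simpa [c] using this

theorem e_pow_mul (m t : ℕ) : e (4 ^ m * t) = e t := by
  induction m with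
  | zero => simp
  | succ m ih => rw [pow_succ, mul_comm (4 ^ m) 4, mul_assoc, e_four, ih]

theorem e_pow_add (m : ℕ) : ∀ (t r : ℕ), r < 4 ^ m → e (4 ^ m * t + r) = e t + e r := by
  induction m with
  | zero =>
    intro t r hr
    obtain rfl : r = 0 := by simpa using hr
    simp [e_zero]
  | succ m ih =>
    intro t r hr
    have h1 : r = 4 * (r / 4) + r % 4 := by omega
    have h2 : r / 4 < 4 ^ m := by
      rw [pow_succ] at hr
      omega
    have h3 : 4 ^ (m + 1) * t + r = 4 * (4 ^ m * t + r / 4) + r % 4 := by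
      rw [pow_succ]
      nlinarith [h1]
    rw [h3, e_digit _ _ (by omega), ih t (r / 4) h2]
    conv_rhs => rw [h1]
    rw [e_digit _ _ (by omega)]
    ring

theorem e_succ : ∀ t : ℕ, e (t + 1) = e t - 1 ∨ e (t + 1) = e t + 2 := by
  intro t
  induction t using Nat.strong_induction_on with
  | _ t ih =>
  have h1 : t = 4 * (t / 4) + t % 4 := by omega
  have h2 : t % 4 < 4 := by omega
  by_cases h3 : t % 4 = 3
  · by_cases h0 : t / 4 < t
    · have h4 : t + 1 = 4 * (t / 4 + 1) := by omega
      have h5 : e t = e (t / 4) := by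
        conv_lhs => rw [h1, h3]
        rw [e_digit _ _ (by norm_num)]
        simp [c]
      rw [h4, e_four, h5]
      exact ih (t / 4) h0
    · omega
  · have h4 : t + 1 = 4 * (t / 4) + (t % 4 + 1) := by omega
    have h5 : e t = e (t / 4) + c (t % 4) := by
      conv_lhs => rw [h1]
      rw [e_digit _ _ h2]
    rw [h4, e_digit _ _ (by omega), h5]
    have h6 : t % 4 = 0 ∨ t % 4 = 1 ∨ t % 4 = 2 := by omega
    rcases h6 with h6 | h6 | h6
    · left; rw [h6]; simp [c]; ring
    · right; rw [h6]; simp [c]; ring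
    · left; rw [h6]; simp [c]

/-- positions of the letter 1 -/
def P : ℕ → ℕ
  | 0 => 0
  | t + 1 => P t + (if e (t + 1) = e t - 1 then 2 else 3)

theorem three_P (t : ℕ) : (3 * P t : ℤ) = 7 * t + e t := by
  induction t with
  | zero => simp [P, e_zero]
  | succ t ih =>
    rw [P]
    push_cast
    rcases e_succ t with h | h
    · rw [if_pos h]
      rw [h]
      push_cast
      linarith
    · rw [if_neg (by omega)]
      rw [h]
      push_cast
      linarith

theorem P_succ (t : ℕ) : P (t + 1) = P t + 2 ∨ P (t + 1) = P t + 3 := by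
  rw [P]
  split_ifs
  · exact Or.inl rfl
  · exact Or.inr rfl

theorem P_strictMono : StrictMono P :=
  strictMono_nat_of_lt_succ fun t => by
    rcases P_succ t with h | h <;> omega

theorem P_pow_add (m t r : ℕ) (hr : r < 4 ^ m) : P (4 ^ m * t + r) = P (4 ^ m * t) + P r := by
  have h1 := three_P (4 ^ m * t + r)
  have h2 := three_P (4 ^ m * t)
  have h3 := three_P r
  rw [e_pow_add m t r hr] at h1
  rw [e_pow_mul] at h2
  push_cast at h1 h2
  have : (P (4 ^ m * t + r) : ℤ) = P (4 ^ m * t) + P r := by linarith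
  exact_mod_cast this

/-- `len m` is the length of the block with `4 ^ m` ones -/
def len (m : ℕ) : ℕ := P (4 ^ m)

theorem three_len (m : ℕ) : 3 * len m + 1 = 7 * 4 ^ m := by
  have h := three_P (4 ^ m)
  have h1 : e (4 ^ m) = -1 := by
    have := e_pow_mul m 1
    rw [mul_one] at this
    rw [this]
    have := e_digit 0 1 (by norm_num)
    simpa [e_zero, c] using this
  rw [h1] at h
  push_cast at h
  have : (3 * len m + 1 : ℤ) = 7 * 4 ^ m := by
    unfold len
    linarith
  exact_mod_cast this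

theorem le_gap (m t : ℕ) : P (4 ^ m * t) + len m ≤ P (4 ^ m * (t + 1)) := by
  have h1 := three_P (4 ^ m * t)
  have h2 := three_P (4 ^ m * (t + 1))
  have h3 := three_len m
  rw [e_pow_mul] at h1 h2
  push_cast at h1 h2
  have h4 : (3 * len m + 1 : ℤ) = 7 * 4 ^ m := by exact_mod_cast h3
  have h5 : e (t + 1) ≥ e t - 1 := by
    rcases e_succ t with h | h <;> omega
  have : (P (4 ^ m * t) + len m : ℤ) ≤ P (4 ^ m * (t + 1)) := by nlinarith
  exact_mod_cast this

open Classical in
/-- the word with the letter 1 at the positions `P t` and 2 elsewhere -/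
noncomputable def b (i : ℕ) : ℕ := if ∃ t, P t = i then 1 else 2

theorem b_eq_iff {i j : ℕ} : b i = b j ↔ ((∃ t, P t = i) ↔ ∃ t, P t = j) := by
  unfold b
  by_cases h1 : ∃ t, P t = i <;> by_cases h2 : ∃ t, P t = j <;> simp [h1, h2]

/-- every block repeats the beginning -/
theorem b_block (m t z : ℕ) (hz : z < len m) : b (P (4 ^ m * t) + z) = b z := by
  rw [b_eq_iff]
  constructor
  · rintro ⟨T, hT⟩
    have h1 : 4 ^ m * t ≤ T := by
      by_contra h
      have := P_strictMono (not_le.1 h)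
      omega
    have h2 : T < 4 ^ m * (t + 1) := by
      by_contra h
      have h3 := P_strictMono.monotone (not_lt.1 h)
      have := le_gap m t
      omega
    obtain ⟨r, rfl⟩ := Nat.exists_eq_add_of_le h1
    have hr : r < 4 ^ m := by
      rw [mul_add, mul_one] at h2
      omega
    rw [P_pow_add m t r hr] at hT
    exact ⟨r, by omega⟩
  · rintro ⟨r, rfl⟩
    have hr : r < 4 ^ m := by
      by_contra h
      have := P_strictMono.monotone (not_lt.1 h)
      unfold len at hz
      omega
    exact ⟨4 ^ m * t + r, P_pow_add m t r hr⟩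

/-! ### multiples with prescribed digit count -/

/-- the number with digits `ds` at the positions `0, φ, 2 φ, …` -/
def mk (φ : ℕ) : List ℕ → ℕ
  | [] => 0
  | d :: ds => 4 ^ φ * mk φ ds + d

theorem e_mk {φ : ℕ} (hφ : 1 ≤ φ) : ∀ ds : List ℕ, (∀ d ∈ ds, d < 4) →
    e (mk φ ds) = (ds.map c).sum := by
  intro ds
  induction ds with
  | nil => intro _; simp [mk, e_zero]
  | cons d ds ih =>
    intro h
    have hd : d < 4 := h d (by simp)
    have h1 : d < 4 ^ φ := lt_of_lt_of_le hd (by
      calc 4 = 4 ^ 1 := by norm_num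
        _ ≤ 4 ^ φ := Nat.pow_le_pow_right (by norm_num) hφ)
    rw [mk, e_pow_add φ _ d h1, ih fun x hx => h x (by simp [hx])]
    have h2 : e d = c d := by
      have := e_digit 0 d hd
      simpa [e_zero] using this
    rw [h2]
    simp [add_comm]

theorem mk_mod {N b φ : ℕ} (h : 4 ^ b * 4 ^ φ ≡ 4 ^ b [MOD N]) : ∀ ds : List ℕ,
    4 ^ b * mk φ ds ≡ 4 ^ b * ds.sum [MOD N] := by
  intro ds
  induction ds with
  | nil => simp [mk, Nat.ModEq.refl]
  | cons d ds ih =>
    rw [mk, List.sum_cons]
    have h1 : 4 ^ b * (4 ^ φ * mk φ ds + d) = (4 ^ b * 4 ^ φ) * mk φ ds + 4 ^ b * d := by ring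
    have h2 : 4 ^ b * (d + ds.sum) = 4 ^ b * ds.sum + 4 ^ b * d := by ring
    rw [h1, h2]
    exact Nat.ModEq.add_right _ ((h.mul_right _).trans ih)

theorem exists_period (N : ℕ) (hN : 1 ≤ N) : ∃ b φ, 1 ≤ φ ∧ 4 ^ b * 4 ^ φ ≡ 4 ^ b [MOD N] := by
  have : NeZero N := ⟨by omega⟩
  obtain ⟨x, y, hxy, h⟩ := Finite.exists_ne_map_eq_of_infinite
    (fun n : ℕ => (⟨4 ^ n % N, Nat.mod_lt _ (by omega)⟩ : Fin N))
  simp only [Fin.mk.injEq] at h
  rcases lt_or_gt_of_ne hxy with hlt | hlt
  · refine ⟨x, y - x, by omega, ?_⟩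
    rw [← pow_add, Nat.add_sub_cancel' hlt.le]
    exact h.symm
  · refine ⟨y, x - y, by omega, ?_⟩
    rw [← pow_add, Nat.add_sub_cancel' hlt.le]
    exact h

theorem mk_pos {φ : ℕ} : ∀ {ds : List ℕ}, (∃ d ∈ ds, 0 < d) → 0 < mk φ ds := by
  intro ds
  induction ds with
  | nil => rintro ⟨d, hd, -⟩; simp at hd
  | cons a ds ih =>
    rintro ⟨d, hd, h0⟩
    rw [mk]
    rcases List.mem_cons.1 hd with rfl | hd
    · omega
    · have := ih ⟨d, hd, h0⟩
      positivity

/-- Every multiple of 3 is the value of `e` at a positive multiple of `N`. -/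
theorem exists_mul (N : ℕ) (hN : 1 ≤ N) (D : ℤ) : ∃ i, 1 ≤ i ∧ e (N * i) = 3 * D := by
  obtain ⟨b, φ, hφ, hp⟩ := exists_period N hN
  obtain ⟨n, hn⟩ : ∃ n : ℕ, D = n ∨ D = -n := ⟨D.natAbs, Int.natAbs_eq D⟩
  obtain ⟨ds, h1, h2, h3, h4⟩ : ∃ ds : List ℕ, (∀ d ∈ ds, d < 4) ∧ (∃ d ∈ ds, 0 < d) ∧
      N ∣ ds.sum ∧ (ds.map c).sum = 3 * D := by
    rcases hn with rfl | rfl
    · refine ⟨List.replicate (3 * n) 2 ++ List.replicate (2 * n * (N - 1) + N) 3, ?_, ?_, ?_, ?_⟩
      · intro d hd
        simp only [List.mem_append, List.mem_replicate] at hd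
        omega
      · exact ⟨3, by simp [List.mem_replicate]; omega, by norm_num⟩
      · refine ⟨6 * n + 3, ?_⟩
        simp only [List.sum_append, List.sum_replicate, smul_eq_mul]
        obtain ⟨k, rfl⟩ := Nat.exists_eq_add_of_le hN
        simp only [Nat.add_sub_cancel_left]
        ring
      · simp [c]
    · refine ⟨List.replicate (3 * n) 1 ++ List.replicate (n * (N - 1) + N) 3, ?_, ?_, ?_, ?_⟩
      · intro d hd
        simp only [List.mem_append, List.mem_replicate] at hd
        omega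
      · exact ⟨3, by simp [List.mem_replicate]; omega, by norm_num⟩
      · refine ⟨3 * n + 3, ?_⟩
        simp only [List.sum_append, List.sum_replicate, smul_eq_mul]
        obtain ⟨k, rfl⟩ := Nat.exists_eq_add_of_le hN
        simp only [Nat.add_sub_cancel_left]
        ring
      · simp [c]
  have h5 : N ∣ 4 ^ b * mk φ ds := by
    have h6 : 4 ^ b * mk φ ds ≡ 0 [MOD N] :=
      (mk_mod hp ds).trans ((Nat.modEq_zero_iff_dvd).2 (h3.mul_left _))
    exact (Nat.modEq_zero_iff_dvd).1 h6
  obtain ⟨i, hi⟩ := h5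
  have hpos : 0 < 4 ^ b * mk φ ds := Nat.mul_pos (by positivity) (mk_pos h2)
  refine ⟨i, ?_, ?_⟩
  · rw [hi] at hpos
    exact Nat.pos_of_mul_pos_left hpos |> fun h => by
      rcases Nat.eq_zero_or_pos i with h0 | h0
      · subst h0; simp at hpos
      · exact h0
  · rw [← hi, e_pow_mul, e_mk hφ ds h1, h4]

end Pool.Agent.X247.Fx
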